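import Pool.Agent.W345.VO.Stm

/-!
# Chains of vacuum vectors exist
-/

set_option autoImplicit false

namespace Pool.Agent.W414.VO

open Pool.Agent.W345.VO

universe u

variable {M : Type u} [AddCommGroup M] [Module ℂ M]

/-- one step up -/
def stepU (ρ : Rep M) (k j : ℤ) (w : M) : M := ρ.E (-(k + 2 * j) - 1) w

/-- one step down -/
def stepD (ρ : Rep M) (k j : ℤ) (w : M) : M := ρ.F (k + 2 * j - 1) w

/-- upper half of the chain -/
def up (ρ : Rep M) (k : ℤ) (x : M) : ℕ → M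
  | 0 => x
  | n + 1 => stepU ρ k n (up ρ k x n)

/-- lower half of the chain -/
def dn (ρ : Rep M) (k : ℤ) (x : M) : ℕ → M
  | 0 => x
  | n + 1 => stepD ρ k (-(n : ℤ)) (dn ρ k x n)

/-- the chain -/
def yy (ρ : Rep M) (k : ℤ) (x : M) : ℤ → M
  | Int.ofNat n => up ρ k x n
  | Int.negSucc n => dn ρ k x (n + 1)

/-- the invariant -/
structure Inv (ρ : Rep M) (k j : ℤ) (w : M) : Prop where
  om : ρ.Om w
  eig : ρ.h 0 w = ((k + 2 * j : ℤ) : ℂ) • w
  ne : w ≠ 0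
  hom : ∃ d, w ∈ ρ.deg d

lemma inv_facts (hZ : S_ZW.{u}) (ρ : Rep M) {k j : ℤ} {w : M} (h : Inv ρ k j w) :
    Inv ρ k (j + 1) (stepU ρ k j w) ∧ Inv ρ k (j - 1) (stepD ρ k j w) ∧
    stepD ρ k (j + 1) (stepU ρ k j w) = w ∧ stepU ρ k (j - 1) (stepD ρ k j w) = w ∧
    (∀ n, -(k + 2 * j) - 1 < n → ρ.E n w = 0) ∧ (∀ n, k + 2 * j - 1 < n → ρ.F n w = 0) := by
  obtain ⟨hE0, hF0, hEo, hEh, hFo, hFh, hFE, hEF⟩ := hZ M ρ (k + 2 * j) w h.om h.eig
  have h1 : stepD ρ k (j + 1) (stepU ρ k j w) = w := by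
    unfold stepD stepU
    rw [show k + 2 * (j + 1) - 1 = k + 2 * j + 1 by ring]
    exact hFE
  have h2 : stepU ρ k (j - 1) (stepD ρ k j w) = w := by
    unfold stepD stepU
    rw [show -(k + 2 * (j - 1)) - 1 = -(k + 2 * j) + 1 by ring]
    exact hEF
  have hneU : stepU ρ k j w ≠ 0 := by
    intro h0
    rw [h0] at h1
    unfold stepD at h1
    rw [map_zero] at h1
    exact h.ne h1.symm
  have hneD : stepD ρ k j w ≠ 0 := by
    intro h0
    rw [h0] at h2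
    unfold stepU at h2
    rw [map_zero] at h2
    exact h.ne h2.symm
  obtain ⟨d, hd⟩ := h.hom
  refine ⟨⟨hEo, ?_, hneU, ?_⟩, ⟨hFo, ?_, hneD, ?_⟩, h1, h2, hE0, hF0⟩
  · rw [show k + 2 * (j + 1) = k + 2 * j + 2 by ring]
    exact hEh
  · obtain ⟨ha, hb⟩ := ρ.E_deg (-(k + 2 * j) - 1) d w hd
    have hnn : 0 ≤ (d : ℤ) - (-(k + 2 * j) - 1) - 1 := by
      by_contra hneg
      exact hneU (hb (by omega))
    exact ⟨((d : ℤ) - (-(k + 2 * j) - 1) - 1).toNat, ha _ (Int.toNat_of_nonneg hnn)⟩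
  · rw [show k + 2 * (j - 1) = k + 2 * j - 2 by ring]
    exact hFh
  · obtain ⟨ha, hb⟩ := ρ.F_deg (k + 2 * j - 1) d w hd
    have hnn : 0 ≤ (d : ℤ) + 1 - (k + 2 * j - 1) := by
      by_contra hneg
      exact hneD (hb (by omega))
    exact ⟨((d : ℤ) + 1 - (k + 2 * j - 1)).toNat, ha _ (Int.toNat_of_nonneg hnn)⟩

/-- the theorem -/
theorem chn : S_ZW.{u} → S_CHN.{u} := by
  intro hZ M _ _ ρ k d x hd hom heig hne
  have hx : Inv ρ k 0 x := ⟨hom, by rw [heig]; simp, hne, d, hd⟩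
  have hup : ∀ n : ℕ, Inv ρ k n (up ρ k x n) := by
    intro n
    induction n with
    | zero => exact hx
    | succ n ih =>
      have := (inv_facts hZ ρ ih).1
      push_cast
      exact this
  have hdn : ∀ n : ℕ, Inv ρ k (-(n : ℤ)) (dn ρ k x n) := by
    intro n
    induction n with
    | zero => exact hx
    | succ n ih =>
      have := (inv_facts hZ ρ ih).2.1
      rw [show (-((n + 1 : ℕ) : ℤ)) = -(n : ℤ) - 1 by push_cast; ring]
      exact this
  have hyneg : ∀ n : ℕ, yy ρ k x (-(n : ℤ)) = dn ρ k x n := by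
    intro n
    cases n with
    | zero => rfl
    | succ n => rfl
  have hypos : ∀ n : ℕ, yy ρ k x (n : ℤ) = up ρ k x n := fun n => rfl
  have hI : ∀ j, Inv ρ k j (yy ρ k x j) := by
    intro j
    obtain ⟨n, rfl | rfl⟩ := j.eq_nat_or_neg
    · rw [hypos]; exact hup n
    · rw [hyneg]; exact hdn n
  have hU : ∀ j, stepU ρ k j (yy ρ k x j) = yy ρ k x (j + 1) := by
    intro j
    obtain ⟨n, rfl | rfl⟩ := j.eq_nat_or_neg
    · rfl
    · cases n with
      | zero => rfl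
      | succ n =>
        have h1 := (inv_facts hZ ρ (hdn n)).2.2.2.1
        rw [hyneg, show (-((n + 1 : ℕ) : ℤ)) = -(n : ℤ) - 1 by push_cast; ring,
          show -(n : ℤ) - 1 + 1 = -(n : ℤ) by ring, hyneg]
        exact h1
  have hD : ∀ j, stepD ρ k j (yy ρ k x j) = yy ρ k x (j - 1) := by
    intro j
    obtain ⟨n, rfl | rfl⟩ := j.eq_nat_or_neg
    · cases n with
      | zero => rfl
      | succ n =>
        have h1 := (inv_facts hZ ρ (hup n)).2.2.1
        rw [hypos, show ((n + 1 : ℕ) : ℤ) = (n : ℤ) + 1 by push_cast; ring,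
          show (n : ℤ) + 1 - 1 = (n : ℤ) by ring, hypos]
        exact h1
    · rw [hyneg, show -(n : ℤ) - 1 = -((n + 1 : ℕ) : ℤ) by push_cast; ring, hyneg]
      rfl
  refine ⟨yy ρ k x, ⟨fun j => (hI j).om, fun j => (hI j).eig, hU, hD,
    fun j => (inv_facts hZ ρ (hI j)).2.2.2.2.1, fun j => (inv_facts hZ ρ (hI j)).2.2.2.2.2,
    fun j => (hI j).ne, fun j => (hI j).hom⟩, rfl⟩

end Pool.Agent.W414.VO
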